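import Pool.Agent.H80U.Final

/-!
# Unions of `k` Euclidean pieces: `D_k = O(log² k)`

If a metric space `X` is the union of `k` subsets, each of which (with the induced metric) embeds
isometrically into `ℓ²(ℕ, ℝ)`, then `X` embeds into `ℓ²(ℕ, ℝ)` with distortion at most
`4000000 * (1 + log k) ^ 2`.

Proof outline (files in `Pool/Agent/H80U`):
* `Energy`, `Lift`: elimination of vertices in weighted networks (star-mesh transform) and the
  response of a network on one piece, lifted to the points of its parent piece;
* `Minimax`, `Tree`: duality turns this into a Lipschitz extension theorem for tree structured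
  unions of Euclidean pieces;
* `Perm`, `Chain`, `Extend`: random priorities on the pieces and random radii reduce a general
  union to tree structured ones: an isometric map of one piece extends to all of `X` with
  Lipschitz constant `O((log k)^(3/2))`;
* `Gauss`, `Feat`, `Sample`, `Embed`: random sampling of the pieces and localised Gaussian
  features give the embedding of finite spaces;
* `Limit`, `Final`: compactness and separability.
-/

namespace Pool.Agent.Results.MP_23d2e1_gt.LogSquared

/-- Every union of `k` Euclidean pieces embeds into `ℓ²` with distortion `O(log² k)`. -/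
theorem result.{u} (k : ℕ) (X : Type u) [MetricSpace X] (A : Fin k → Set X)
    (hcov : ⋃ i, A i = Set.univ)
    (hA : ∀ i, ∃ g : A i → lp (fun _ : ℕ => ℝ) 2, Isometry g) :
    ∃ f : X → lp (fun _ : ℕ => ℝ) 2, ∀ x y : X,
      dist x y ≤ ‖f x - f y‖ ∧
      ‖f x - f y‖ ≤ 4000000 * (1 + Real.log k) ^ 2 * dist x y :=
  Pool.Agent.H80U.main k X A hcov hA

end Pool.Agent.Results.MP_23d2e1_gt.LogSquared
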