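import Pool.Agent.H98U.LowFinal

/-!
# Unions of `k` pieces of `ℝⁿ`: distortion `O(log k + √(n log k))`

If a metric space `X` is the union of `k` subsets, each of which (with the induced metric) embeds
into the Euclidean space `ℝⁿ` with distortion at most `D` (`D = 1`: isometrically), then `X`
embeds into `ℓ²(ℕ, ℝ)` with distortion at most
`D * (7000 * (1 + log k) + 800 * √(n * (1 + log k)))`.

Proof outline:
* `Pool/Agent/H98U/LowExt`: a map `g` of one piece `A` into `ℝⁿ` extends to all of `X` with
  Lipschitz constant `D * (2 √n + 1)` and accuracy `‖F x - g s‖ ≤ 6 D dist x s`: for a sign vector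
  `θ` let `U θ x = min over b ∈ A of ⟨θ, g b⟩ + D (2 √n + 1) dist x b` (McShane) and let the
  coordinate `l` of `F x` be the average of `θ l * U θ x` over all `θ`;  the Lipschitz bound is
  Bessel's inequality on the cube, the accuracy follows by flipping one sign at a time;
* `Pool/Agent/H98U/LowEmbed`, `LowFinal`: random sampling of the pieces and localised Gaussian
  features (files `Feat`, `Sample`, `Embed`, `Limit` of `Pool/Agent/H80U`) with this extension.
-/

namespace Pool.Agent.Results.MP_23d2e1_gt.LowDimension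

/-- Every union of `k` pieces which embed into `ℝⁿ` with distortion `D` embeds into `ℓ²` with
distortion `O(D (log k + √(n log k)))`. -/
theorem result.{u} (k n : ℕ) (D : ℝ) (hD : 1 ≤ D) (X : Type u) [MetricSpace X]
    (A : Fin k → Set X) (hcov : ⋃ i, A i = Set.univ)
    (hA : ∀ i, ∃ g : A i → EuclideanSpace ℝ (Fin n), ∀ x y : A i,
      dist x y ≤ ‖g x - g y‖ ∧ ‖g x - g y‖ ≤ D * dist x y) :
    ∃ f : X → lp (fun _ : ℕ => ℝ) 2, ∀ x y : X,
      dist x y ≤ ‖f x - f y‖ ∧
      ‖f x - f y‖ ≤
        D * (7000 * (1 + Real.log k) + 800 * √(n * (1 + Real.log k))) * dist x y :=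
  Pool.Agent.H98U.low_main k n D hD X A hcov hA

end Pool.Agent.Results.MP_23d2e1_gt.LowDimension
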