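import Pool.Agent.H98U.Mix

/-!
# Pieces of controlled Nagata dimension and `s` arbitrary Euclidean pieces

Let a metric space `X` be the union of subsets `A i` (`i < k`) and `B j` (`j < s`), with the
induced metrics.  The `B j` embed isometrically into `ℓ²(ℕ, ℝ)`.  The `A i` embed into `ℓ²(ℕ, ℝ)`
with distortion at most `D`, and every `A i` has at every scale `r > 0` a cover by sets of diameter
at most `c * r` such that every closed ball of radius `r` meets at most `m` members.  (Nagata
dimension at most `n` with constant `γ` gives `c = 2 * γ`, `m = n + 1`; doubling with constant `lam`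
gives `c = 2`, `m = lam ^ 2`; ultrametric spaces have `c = m = 1`.)  Then `X` embeds into
`ℓ²(ℕ, ℝ)` with distortion `O(c D (log k + √(log m · log k)) + c (1 + log² s) √(log k + log m))`.

Proof outline (files in `Pool/Agent/H98U`):
* `Sel`, `Nagata`: let `g` be a 1-Lipschitz map of one piece `A` into a finite dimensional
  Euclidean space and `u` the members of a cover of `A` at scale `16 * r`, `p u = g (a point of u)`.
  For a sign vector `θ` let `U θ x` be the minimum of `⟨θ, p u⟩ + K r / y u x` over the members `u`
  with `y u x = (8 r - dist x u) / r > 0` (at most `m` of them), `K = O(c √(1 + log m))`, and let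
  the coordinate `l` of `F x` be the average of `θ l * U θ x` over all `θ`.  The subgaussian tails
  of `⟨θ, v⟩` bound the fourth moment of `1 / y` at the minimiser by a constant; with Bessel's
  inequality on the cube this gives the Lipschitz bound `O(K)` along short steps (the ambient space
  is first embedded in a normed space by Kuratowski's map, so that steps can be subdivided), and
  flipping one sign at a time gives the accuracy `‖F x - g a‖ = O(c (r + dist x a))`;
* `AllBut`: the same with covers of the complement of `A`: maps of an arbitrary subset extend with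
  constant `O(c √(1 + log (k m)))` if its complement is covered by `k` pieces with such covers;
* `Scale`, `GlueOff`, `AllButMain`: gluing of the maps of the scales `2 ^ j ≈ dist x A`;
* `Part`: random sampling of the pieces `A i` and localised Gaussian features (files `Feat`,
  `Sample`, `Embed`, `Limit` of `Pool/Agent/H80U`) with these extensions give a map of `X` which
  does not contract pairs with a point in some `A i`;
* `Mix`: the union of the `B j` embeds with distortion `O(1 + log² s)` (hand-in LogSquared), and
  the extension of this map to `X` is added as one further coordinate.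
-/

namespace Pool.Agent.Results.MP_23d2e1_gt.MixedPieces

/-- `Y` embeds into `ℓ²(ℕ, ℝ)` with distortion at most `C` (isometrically if `C = 1`). -/
def EmbedsL2 (Y : Type*) [MetricSpace Y] (C : ℝ) : Prop :=
  ∃ f : Y → lp (fun _ : ℕ => ℝ) 2, ∀ x y : Y, dist x y ≤ ‖f x - f y‖ ∧
    ‖f x - f y‖ ≤ C * dist x y

/-- At every scale `r > 0` the space `Y` has a cover `𝒞` by sets of diameter at most `c * r` such
that every closed ball of radius `r` meets at most `m` members of `𝒞`. -/
def NagataCovers (Y : Type*) [MetricSpace Y] (c : ℝ) (m : ℕ) : Prop :=
  ∀ r : ℝ, 0 < r → ∃ 𝒞 : Set (Set Y), ⋃₀ 𝒞 = Set.univ ∧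
    (∀ C ∈ 𝒞, ∀ x ∈ C, ∀ y ∈ C, dist x y ≤ c * r) ∧
    ∀ p : Y, {C ∈ 𝒞 | ∃ q ∈ C, dist q p ≤ r}.encard ≤ m

/-- The union of `k` pieces which embed into `ℓ²` with distortion `D` and have covers of
multiplicity `m` with constant `c` at every scale, and of `s` arbitrary Euclidean pieces, embeds
into `ℓ²` with distortion `O(c D (log k + √(log m · log k)) + c (1 + log² s) √(log k + log m))`. -/
theorem result.{u} (k s m : ℕ) (hm : 1 ≤ m) (c D : ℝ) (hc : 1 ≤ c) (hD : 1 ≤ D) (X : Type u)
    [MetricSpace X] (A : Fin k → Set X) (B : Fin s → Set X)
    (hcov : (⋃ i, A i) ∪ (⋃ j, B j) = Set.univ)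
    (hN : ∀ i, NagataCovers (A i) c m) (hA : ∀ i, EmbedsL2 (A i) D)
    (hB : ∀ j, EmbedsL2 (B j) 1) :
    EmbedsL2 X (c * (D * (360000 * (1 + Real.log k) +
      1100000 * √((1 + Real.log m) * (1 + Real.log k))) +
      3432 * (1 + 10000000 * Real.log s * (1 + Real.log s)) *
        √(1 + Real.log k + Real.log m))) :=
  Pool.Agent.H98U.mixed_main k s c hc m hm D hD X A B hcov
    (fun i => Pool.Agent.H98U.cov_of_subtype (A i) c m (hN i)) hA hB

end Pool.Agent.Results.MP_23d2e1_gt.MixedPieces
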